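import Pool.Agent.J4H46.TA.Ext

/-!
# The Tate conjecture at all primes for 100% of the elliptic surfaces with a section of order two over all
# number fields, over all solvable and all small extensions at the same time

Let `k` be a number field with ring of integers `O`. Every elliptic surface over the projective line over
`k` with a section of order two is the minimal surface with an equation

`E : y² = x (x² + a x + b)`

with polynomials `a`, `b` over `O`. We consider `a` of degree at most `m` and `b` of degree at most `N`, where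
`2 m ≤ N`, `N ≥ 5` and `N` is odd or divisible by 4. For `N = 4 n`, `m = 2 n` these are ALL the elliptic
surfaces with a section of order two and fundamental line bundle of degree `n` (geometric genus
`n - 1`); for odd `N` they are those with a fibre of additive type (`III` or `III*` in general) at `t = ∞`.

Call `(a, b)` good if `b` and `d = a² - 4 b` are irreducible over `k` of degree `N`, and the following
(`PosOver`) holds over the number fields `L` which contain `k` and satisfy one of the conditions

(A) `L` is contained in a normal extension `M` of `k` (finite or not) such that neither `b` nor `d` splits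
into linear factors over `M`;
(B) the Galois groups over `k` of the elements of `L` are solvable (for example `L = k`);
(C) the degree of `L` over `k` is less than `N`.

`PosOver`: for a set of primes `v` of `L` of positive lower density (`GoodPrime`) the surface has good
reduction at `v` (the residue field `κ` has odd characteristic, the reductions of `b` and `d` are separable
of degree `N`, and are coprime unless `a = 0`), and for the reduction of `E` and all its twists `E_c` by
constants `c` of `κ`

1. the Tate conjecture for divisors at the prime 2 holds over `κ` (`TateAtTwo`);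
2. every point of `E_c(κ(t))` is the sum of a point of order at most two and the double of a point, so
  `E_c(κ(t))` is finite (it is finitely generated);
3. the Tate-Shafarevich group of `E_c` over `κ(t)` has no element of order two: every class of
  2-power order in `H¹(κ(t), E_c)` which is trivial over all the completions of `κ(t)`, the one at
  `t = ∞` included, is zero (`ShaTwoTrivialAll`).

Theorem.

(1) (Congruences.) For every `η > 0` there is an ideal `M ≠ 0` of `O` (with finite quotient) and a set of
residue classes modulo `M` of pairs `(a, b)` over `O` of degrees at most `m`, `N` with proportion at least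
`1 - η` among all the residue classes, such that EVERY pair over `O` in one of these residue classes
is good.

(2) (100%.) Let `B 0`, `B 1`, ... be a sequence of nonempty finite sets of such pairs over `O` which is
equidistributed modulo each nonzero ideal of `O` (for example boxes). Then the proportion of the good
pairs in `B i` tends to `1`.

The Tate conjecture over `L`. By the theorems of Artin, Tate and Milne the conjectures of Tate (for
divisors, at all primes) and of Birch and Swinnerton-Dyer hold for the reductions `X_v` at the primes `v`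
in `PosOver`, and the Tate classes of `X_v` are spanned by the zero section and the components of the
fibres. These classes lift to the surface over the algebraic closure, and the specialisation
`H²(X) → H²(X_v)` is injective at all primes `ℓ` different from the characteristic of `κ`, of which there
are infinitely many. So the Tate conjecture for divisors on `X` over `L` holds at ALL primes `ℓ`, and so it
does for the twists by the constants of `L`: for 100% of the surfaces, over all the fields `L` as above.

The proof. Frobenius elements at maximal ideals of `O` show that the Galois groups of `b` and `d` over `k`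
are the full symmetric groups, and a sieve shows that this is so for 100% of the pairs (starting file
MP_17a657_ag.OrderTwoSections). Let `r` be the odd one of the numbers `N - 1`, `N`. The absolute Galois
group of `M` has an element which permutes the roots of `b` and the roots of `d` in a cycle of length `r`:
if the splitting fields are almost independent this is clear, and otherwise the two actions are related
by an isomorphism of groups, which preserves these cycles because the centralizers of all other
permutations of order `r` are larger. The criterion MP_021685_ag.OddCycleCriterion does the rest.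
-/

set_option autoImplicit false

namespace Pool.Agent.Results.MP_97f789_ag.AlmostAllSurfacesAllPrimes

open Polynomial NumberField Filter Topology Pool.Agent.J4H46.TA
open scoped Classical

/-- The polynomial with the coefficients `c`. -/
noncomputable def poly {R : Type} [CommRing R] {r : ℕ} (c : Fin r → R) : R[X] :=
  ∑ j : Fin r, C (c j) * X ^ (j : ℕ)

/-- The pairs of coefficient vectors of polynomials of degree at most `m` and `N`. -/
abbrev Pairs (m N : ℕ) (R : Type) : Type := (Fin (m + 1) → R) × (Fin (N + 1) → R)

/-- `f` is irreducible over `k`, of degree `N`. -/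
def IrrDeg {k : Type} [Field k] [NumberField k] (N : ℕ) (f : (𝓞 k)[X]) : Prop :=
  Irreducible (f.map (algebraMap (𝓞 k) k)) ∧ (f.map (algebraMap (𝓞 k) k)).natDegree = N

/-- `f` does not split into linear factors over `M`. -/
def NotSplit {k : Type} [Field k] [NumberField k] (f : (𝓞 k)[X]) {Ω : Type} [Field Ω] [Algebra k Ω]
    (M : IntermediateField k Ω) : Prop :=
  ¬ ((f.map (algebraMap (𝓞 k) k)).map (algebraMap k M)).Splits

/-- The good pairs. -/
structure Good {k : Type} [Field k] [NumberField k] (N : ℕ) (a b : (𝓞 k)[X]) : Prop where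
  irrB : IrrDeg N b
  irrD : IrrDeg N (a ^ 2 - 4 * b)
  ext : ∀ (L : Type) [Field L] [NumberField L] [Algebra k L]
    (M : IntermediateField k (AlgebraicClosure L)), Normal k M →
      (∀ x : L, algebraMap L (AlgebraicClosure L) x ∈ M) →
      NotSplit b M → NotSplit (a ^ 2 - 4 * b) M → PosOver a b L
  solv : ∀ (L : Type) [Field L] [NumberField L] [Algebra k L],
    (∀ x : L, Group.IsSolvable (minpoly k x).Gal) → PosOver a b L
  small : ∀ (L : Type) [Field L] [NumberField L] [Algebra k L],
    Module.finrank k L < N → PosOver a b L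

/-- The pair `y` over `R` is in the residue class `z`. -/
def InClass {R : Type} [CommRing R] {m N : ℕ} {M : Ideal R} (y : Pairs m N R)
    (z : Pairs m N (R ⧸ M)) : Prop :=
  (∀ j, Ideal.Quotient.mk M (y.1 j) = z.1 j) ∧ (∀ j, Ideal.Quotient.mk M (y.2 j) = z.2 j)

/-- A sequence of finite sets of pairs which is equidistributed modulo each ideal with finite
quotient. -/
def Equidistributed {R : Type} [CommRing R] {m N : ℕ} (B : ℕ → Finset (Pairs m N R)) : Prop :=
  ∀ M : Ideal R, Finite (R ⧸ M) → ∀ z : Pairs m N (R ⧸ M),
    Tendsto (fun i => (((B i).filter (fun y => InClass y z)).card : ℝ) / ((B i).card : ℝ)) atTop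
      (𝓝 (1 / (Nat.card (Pairs m N (R ⧸ M)) : ℝ)))

/-- The vector of all the coefficients. -/
def toV {m N : ℕ} {R : Type} (z : Pairs m N R) : Fin (m + 1) ⊕ Fin (N + 1) → R := Sum.elim z.1 z.2

theorem toV_inj {m N : ℕ} {R : Type} : Function.Injective (toV (m := m) (N := N) (R := R)) := by
  rintro ⟨a, b⟩ ⟨a', b'⟩ h
  exact Prod.ext (funext fun j => congrFun h (Sum.inl j)) (funext fun j => congrFun h (Sum.inr j))

theorem toV_surj {m N : ℕ} {R : Type} (y : Fin (m + 1) ⊕ Fin (N + 1) → R) :
    ∃ z : Pairs m N R, toV z = y := by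
  refine ⟨(fun j => y (Sum.inl j), fun j => y (Sum.inr j)), ?_⟩
  funext j
  rcases j with j | j <;> rfl

theorem inClass_iff {R : Type} [CommRing R] {m N : ℕ} {M : Ideal R} (y : Pairs m N R)
    (z : Pairs m N (R ⧸ M)) :
    InClass y z ↔ ∀ j, Ideal.Quotient.mk M (toV y j) = toV z j := by
  constructor
  · rintro ⟨h1, h2⟩ (j | j)
    · exact h1 j
    · exact h2 j
  · intro h
    exact ⟨fun j => h (Sum.inl j), fun j => h (Sum.inr j)⟩

theorem good_of {k : Type} [Field k] [NumberField k] {m N B : ℕ} (hmN : 2 * m ≤ N) (hN : 5 ≤ N)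
    (hpar : Odd N ∨ 4 ∣ N) {z : Pairs m N (𝓞 k)}
    (h : ∀ s : Bool × Fin 3, ∃ p ∈ Pool.Agent.X243.Gen.Zg (𝓞 k) B,
      (fun j => Ideal.Quotient.mk p (toV z j)) ∈ Pool.Agent.X243.Sol.Gev3 m N s ((𝓞 k) ⧸ p)) :
    Good N (poly z.1) (poly z.2) := by
  obtain ⟨h1, h3⟩ := Pool.Agent.X243.Gen.goodG (k := k) hmN (by omega : 3 ≤ N) h
    ((poly z.1).map (algebraMap (𝓞 k) k)) ((poly z.2).map (algebraMap (𝓞 k) k)) rfl rfl
  have e : ((poly z.1).map (algebraMap (𝓞 k) k)) ^ 2 - 4 * (poly z.2).map (algebraMap (𝓞 k) k) =
      ((poly z.1) ^ 2 - 4 * poly z.2).map (algebraMap (𝓞 k) k) := by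
    simp only [Polynomial.map_sub, Polynomial.map_mul, Polynomial.map_pow, Polynomial.map_ofNat]
  rw [e] at h3
  obtain ⟨n, hn⟩ : ∃ n : ℕ, Odd N ∨ N = 4 * n := by
    rcases hpar with h | ⟨n, hn⟩
    · exact ⟨0, Or.inl h⟩
    · exact ⟨n, Or.inr hn⟩
  have ha : 2 * (poly z.1).natDegree ≤ N := by
    have h4 : (poly z.1).natDegree ≤ m := by
      unfold poly
      refine natDegree_sum_le_of_forall_le _ _ fun j _ => ?_
      refine (natDegree_C_mul_X_pow_le _ _).trans ?_
      omega
    omega
  exact ⟨⟨h1.1.1, h1.1.2⟩, ⟨h3.1.1, h3.1.2⟩,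
    fun L _ _ _ M hMn hM a1 a2 => full_ext hN hn ha h1 h3 L M hMn hM a1 a2,
    fun L _ _ _ hL => solv_ext hN hn ha h1 h3 L hL,
    fun L _ _ _ hL => small_ext hN hn ha h1 h3 L hL⟩

theorem result :
    ∀ (k : Type) [Field k] [NumberField k] (m N : ℕ), 2 * m ≤ N → 5 ≤ N → (Odd N ∨ 4 ∣ N) →
      (∀ η : ℝ, 0 < η → ∃ M : Ideal (𝓞 k), Finite ((𝓞 k) ⧸ M) ∧
        (1 - η) * (Nat.card (Pairs m N ((𝓞 k) ⧸ M)) : ℝ) ≤
        (({z : Pairs m N ((𝓞 k) ⧸ M) | ∀ y : Pairs m N (𝓞 k), InClass y z →
              Good N (poly y.1) (poly y.2)}.ncard : ℕ) : ℝ)) ∧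
      (∀ B : ℕ → Finset (Pairs m N (𝓞 k)), (∀ i, (B i).Nonempty) → Equidistributed B →
        Tendsto (fun i => (((B i).filter (fun y => Good N (poly y.1) (poly y.2))).card : ℝ) /
          ((B i).card : ℝ)) atTop (𝓝 1)) := by
  intro k _ _ m N hmN hN hpar
  obtain ⟨R, hR⟩ : ∃ R, R = 𝓞 k := ⟨_, rfl⟩
  have hft : Algebra.FiniteType ℤ (𝓞 k) := inferInstance
  have hcard : ∀ M : Ideal (𝓞 k), (Nat.card (Pairs m N ((𝓞 k) ⧸ M)) : ℝ) =
      (Nat.card ((𝓞 k) ⧸ M) : ℝ) ^ (Fintype.card (Fin (m + 1) ⊕ Fin (N + 1))) := by
    intro M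
    rw [Nat.card_congr (Equiv.ofBijective _
      ⟨toV_inj (m := m) (N := N) (R := (𝓞 k) ⧸ M), toV_surj⟩),
      Nat.card_fun, Nat.card_eq_fintype_card (α := Fin (m + 1) ⊕ Fin (N + 1))]
    push_cast
    rfl
  -- the good vectors
  obtain ⟨S, hS⟩ : ∃ S : Set (Fin (m + 1) ⊕ Fin (N + 1) → 𝓞 k),
      S = {x | ∃ z : Pairs m N (𝓞 k), toV z = x ∧ Good N (poly z.1) (poly z.2)} := ⟨_, rfl⟩
  have hSmem : ∀ y : Pairs m N (𝓞 k), toV y ∈ S ↔ Good N (poly y.1) (poly y.2) := by
    intro y
    rw [hS]
    constructor
    · rintro ⟨z, hz, hg⟩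
      rwa [toV_inj hz] at hg
    · intro hg
      exact ⟨y, rfl, hg⟩
  have key : ∀ η : ℝ, 0 < η → ∃ M : Ideal (𝓞 k), Finite ((𝓞 k) ⧸ M) ∧
      (1 - η) * (Nat.card ((𝓞 k) ⧸ M) : ℝ) ^ (Fintype.card (Fin (m + 1) ⊕ Fin (N + 1))) ≤
        (({x : Fin (m + 1) ⊕ Fin (N + 1) → (𝓞 k) ⧸ M | ∀ y : Fin (m + 1) ⊕ Fin (N + 1) → 𝓞 k,
          (∀ j, Ideal.Quotient.mk M (y j) = x j) → y ∈ S}).ncard : ℝ) := by
    intro η hη
    obtain ⟨M, hM, hd⟩ := Pool.Agent.X243.Gen.densOne (𝓞 k) (RingOfIntegers.not_isField k)
      two_ne_zero (m := m) (by omega : 3 ≤ N) η hη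
    have := hM
    refine ⟨M, hM, hd.trans ?_⟩
    have h3 : ∀ S T : Set (Fin (m + 1) ⊕ Fin (N + 1) → (𝓞 k) ⧸ M), S ⊆ T →
        ((S.ncard : ℕ) : ℝ) ≤ ((T.ncard : ℕ) : ℝ) := fun S T h => by
      exact_mod_cast Set.ncard_le_ncard h (Set.toFinite _)
    apply h3
    intro x hx y hy
    obtain ⟨z, rfl⟩ := toV_surj y
    rw [hSmem]
    refine good_of (B := 2 * N + 2) hmN hN hpar (fun s => ?_)
    obtain ⟨p, hp, hp'⟩ := hx s
    exact ⟨p, hp, hp' (toV z) hy⟩
  constructor
  · intro η hη
    obtain ⟨M, hM, hd⟩ := key η hη
    have := hM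
    refine ⟨M, hM, ?_⟩
    rw [hcard]
    refine hd.trans ?_
    rw [← Set.ncard_image_of_injective _ (toV_inj (R := (𝓞 k) ⧸ M) (m := m) (N := N))]
    have h3 : ∀ S T : Set (Fin (m + 1) ⊕ Fin (N + 1) → (𝓞 k) ⧸ M), S ⊆ T →
        ((S.ncard : ℕ) : ℝ) ≤ ((T.ncard : ℕ) : ℝ) := fun S T h => by
      exact_mod_cast Set.ncard_le_ncard h (Set.toFinite _)
    apply h3
    intro x hx
    obtain ⟨z, rfl⟩ := toV_surj x
    refine ⟨z, fun y hy => ?_, rfl⟩
    rw [← hSmem]
    exact hx _ ((inClass_iff y z).1 hy)
  · intro B hB heq
    have hinj : Function.Injective (toV (R := 𝓞 k) (m := m) (N := N)) := toV_inj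
    have hc : ∀ (i : ℕ) (P : (Fin (m + 1) ⊕ Fin (N + 1) → 𝓞 k) → Prop) [DecidablePred P]
        (Q : Pairs m N (𝓞 k) → Prop) [DecidablePred Q], (∀ y, P (toV y) ↔ Q y) →
        (((B i).map ⟨toV, hinj⟩).filter P).card = ((B i).filter Q).card := by
      intro i P _ Q _ hPQ
      rw [Finset.filter_map, Finset.card_map]
      congr 1
      ext y
      rw [Finset.mem_filter, Finset.mem_filter]
      exact and_congr_right fun _ => hPQ y
    have hlim := Pool.Agent.X243.Gen.tendsto_of_dens S key (fun i => (B i).map ⟨toV, hinj⟩)
      (fun i => (hB i).map) (by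
        intro M hM x
        obtain ⟨z, rfl⟩ := toV_surj x
        have h1 := heq M hM z
        rw [hcard] at h1
        refine h1.congr fun i => ?_
        rw [Finset.card_map, hc i _ (fun y => InClass y z) (fun y => (inClass_iff y z).symm)])
    refine hlim.congr fun i => ?_
    rw [Finset.card_map, hc i _ (fun y => Good N (poly y.1) (poly y.2)) hSmem]

end Pool.Agent.Results.MP_97f789_ag.AlmostAllSurfacesAllPrimes
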