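import Pool.Agent.J4H46.TP.ExaF

/-!
# The Tate conjecture at all primes, over number fields, for the pullbacks of the rational elliptic surfaces
# with full level two by rational functions of prime degree

Let `k` be a number field with ring of integers `O`, and `E₀ : y² = x (x - a) (x - b)` an elliptic curve over
`k(s)`, `a`, `b` polynomials over `O` of degree at most two such that `a b (a - b)` is separable of degree at
least five and splits over `k` (`BaseF`): a rational elliptic surface with full level two and six fibres of type
`I₂`, at rational points; each rational elliptic surface with full level two and six fibres of type `I₂` is of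
this form over a finite extension of `k` whose degree is a power of two. Over the algebraic closure the rank of `E₀`
is two.

Let `s = q(t) / r(t)` be a map of odd degree `n` (`MapDeg`), and let `X` be the elliptic surface over the
projective line with generic fibre the pullback `E` of `E₀`. Its geometric genus is `n - 1`. The forms of the bad
points (`FormF`) are `q - ξ r` for the roots `ξ` of `a b (a - b)`, and `r` if infinity is a bad point and `r` is
not `1`.

Theorem. Suppose one of the following.

(1) Some automorphism `σ` in the absolute Galois group of `k` permutes, for each bad point, the points above it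
in one cycle (`OneAt`; the point may be ramified).

(2) `n ≥ 7` is a prime number, and each form is irreducible over `k` of degree `n` (or a constant times the
`n`-th power of a linear polynomial).

Then for a set of primes `v` of `k` of positive lower density the following holds (`GoodF`). The base and the map
have good reduction at `v`: the reductions of `a`, `b` are the coefficients of a rational elliptic surface with full
level two and six fibres of type `I₂`, and there is exactly one closed point above each of these six places. Let `κ`
be the residue field. Over all the finite extensions `L` of `κ` of degree prime to `n`, in particular over `κ`,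

* the Tate conjecture for divisors at the prime 2 holds for the reduction `X_v` (`TateQ`);
* if the group of the points over `L'(t)`, `L'` a separable closure, is finitely generated (Lang-Neron), then the
  pullback of the group `E₀(L(s))` has finite odd index in `E(L(t))` (`PointsIdx2`).

(3) Towers. Let `p` be an odd prime number which is larger than the number of the bad points different from `0` and
`∞`, none of which is a `p`-th power in `k`. Then the primes `v` for which this is true for ALL the maps
`s = t ^ (p ^ j)`, `j ≥ 0`, have positive lower density.

(4) For example this is so for `k = ℚ`, `E : y² = x (x - (t^(2 m) - 4)) (x + (3 t^m + 5) (t^m + 5))`, `m = p ^ j`, for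
all the prime numbers `p ≥ 7`. Here `((t^m + 2) (3 t^m + 5), (t^m + 2) (3 t^m + 5) (2 t^m + 7))` is a section of
infinite order.

The Tate conjecture over `k`. Replace `k` by a finite extension of degree prime to `n` over which the components of
the bad fibres and the points of `E₀` over the algebraic closure are rational (the Galois group acts on the lattice
of rank two by a group whose order has only the prime divisors 2 and 3; the forms stay irreducible). By
the theorems of Artin, Tate and Milne the Tate conjecture for divisors holds for `X_v` over `κ` at all primes
different from the characteristic, and the space of Tate classes has dimension `2 + ∑ (m_w - 1) + 2`, the same as the rank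
of the group of divisors on `X` over `k` modulo algebraic equivalence, since the rank of `E₀` does not change under reduction. The
specialisation map on the second cohomology is injective. So the Tate conjecture for divisors on `X` holds over `k`
at ALL primes.

The proof. In case (2) each form has a Galois group whose order is divisible by `n`, and a `n`-Sylow subgroup of the
Galois group of the compositum is not the union of the at most six proper subgroups which act trivially on the roots
of one of the forms; so there is an automorphism `σ` as in (1). By Chebotarev's theorem `σ` is a Frobenius element at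
a set of primes of positive density, at which the forms stay irreducible (or powers). Then the theorem
`Pool.Agent.N181.TD.mainG` on coverings over arbitrary fields can be applied over `κ`.
-/

set_option autoImplicit false

namespace Pool.Agent.Results.MP_97f789_ag.FullLevelTwoAllPrimes

open Polynomial NumberField Filter IsDedekindDomain Pool.Agent.J4H46.TP Pool.Agent.W401.Cheb

/-- The lower density of the set of primes of `k` is positive. -/
def PosDensity {k : Type} [Field k] [NumberField k] (P : HeightOneSpectrum (𝓞 k) → Prop) : Prop :=
  ∃ δ : ℝ, 0 < δ ∧ ∀ᶠ N : ℕ in atTop, δ ≤ dens P N

/-- The number of the nonzero roots of `a b (a - b)` is smaller than `p`, and they are not `p`-th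
powers. -/
def NonPowers {k : Type} [Field k] [NumberField k] (p : ℕ) (g : (𝓞 k)[X]) : Prop :=
  (∃ Z : Finset k, Z.card < p ∧ ∀ ξ : k, (g.map (algebraMap (𝓞 k) k)).IsRoot ξ → ξ ≠ 0 → ξ ∈ Z) ∧
  ∀ ξ : k, (g.map (algebraMap (𝓞 k) k)).IsRoot ξ → ξ ≠ 0 → ∀ y : k, y ^ p ≠ ξ

open scoped Classical in
theorem result :
    -- the criterion
    (∀ (k : Type) [Field k] [NumberField k] (n : ℕ) (a b q r : (𝓞 k)[X]), BaseF a b →
      MapDeg n q r →
      (∃ σ : AlgebraicClosure k ≃ₐ[k] AlgebraicClosure k, ∀ f, FormF a b q r f → OneAt σ n f) →
      PosDensity (GoodF n a b q r)) ∧
    -- maps of prime degree
    (∀ (k : Type) [Field k] [NumberField k] (n : ℕ) (a b q r : (𝓞 k)[X]), BaseF a b →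
      MapDeg n q r → n.Prime → 7 ≤ n → (∀ f, FormF a b q r f → InertOrTotal n f) →
      PosDensity (GoodF n a b q r)) ∧
    -- towers
    (∀ (k : Type) [Field k] [NumberField k] (p : ℕ) (a b : (𝓞 k)[X]), BaseF a b →
      p.Prime → Odd p → NonPowers p (a * b * (a - b)) →
      PosDensity (fun v => ∀ j : ℕ, GoodF (p ^ j) a b (X ^ (p ^ j)) 1 v)) ∧
    -- an example
    (∀ p : ℕ, p.Prime → 7 ≤ p →
      PosDensity (k := ℚ) (fun v => ∀ j : ℕ,
        GoodF (p ^ j) (X ^ 2 - 4) (-((3 * X + 5) * (X + 5))) (X ^ (p ^ j)) 1 v)) := by
  refine ⟨fun k _ _ n a b q r hB hM ⟨σ, hσ⟩ => critF hB hM hσ,
    fun k _ _ n a b q r hB hM hp h7 h => primeF hB hM hp h7 h, ?_, fun p hp h7 => exaF hp h7⟩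
  rintro k _ _ p a b hB hp hodd ⟨⟨Z, hZ, hZr⟩, h⟩
  refine towerF hB hp hodd ?_ h
  refine lt_of_le_of_lt (Finset.card_le_card fun ξ hξ => ?_) hZ
  rw [Finset.mem_erase, Multiset.mem_toFinset, mem_roots'] at hξ
  exact hZr ξ hξ.2.2 hξ.1

end Pool.Agent.Results.MP_97f789_ag.FullLevelTwoAllPrimes
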