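import Pool.Agent.J4H46.TP.ExaT

/-!
# The Tate conjecture at all primes, over number fields, for the pullbacks of the rational elliptic surfaces
# with a section of order three by rational functions of prime degree

Let `k` be a number field with ring of integers `O`, and `E₀ : y² + a x y + b y = x³` an elliptic curve over
`k(s)`, `a`, `b` polynomials over `O` of degree at most one and three: a rational elliptic surface with a section
of order three; each such surface has an equation of this form. We assume that `b` and `d = a³ - 27 b` are not
constants times cubes, and that the finite places of bad reduction are rational, which is so after a finite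
extension of `k` whose degree has only the prime divisors 2 and 3 (`BaseT`). In general there are three fibres of
type `I₃` over the zeros of `b` and three of type `I₁` over the zeros of `d`, and over the algebraic closure the
rank of `E₀` is two.

Let `s = q(t) / r(t)` be a map of degree `n` prime to six (`MapDeg`), and let `X` be the elliptic surface over the
projective line with generic fibre the pullback `E` of `E₀`. In the semistable case its geometric genus is `n - 1`. The
forms of the bad points (`FormT`) are `q - ξ r` for the roots `ξ` of `b d`, and `r` if infinity is a bad point
(`InfT`: not both `b` and `d` have degree three) and `r` is not `1`.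

Theorem. Suppose one of the following.

(1) Some automorphism `σ` in the absolute Galois group of `k` permutes, for each bad point, the points above it
in one cycle (`OneAt`; the point may be ramified).

(2) `n ≥ 7` is a prime number, and each form is irreducible over `k` of degree `n` (or a constant times the
`n`-th power of a linear polynomial).

Then for a set of primes `v` of `k` of positive lower density the following holds (`GoodT`). The base and the map
have good reduction at `v`: the reductions of `a`, `b` have the same properties, with the same degrees, and
there is exactly one closed point above each bad place of the reduction. Let `κ` be the residue field. Over all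
the finite extensions `L` of `κ` of degree prime to `n`, in particular over `κ`,

* the Tate conjecture for divisors at the prime 3 holds for the reduction `X_v` (`TateQ`);
* if the group of the points over `L'(t)`, `L'` a separable closure, is finitely generated (Lang-Neron), then the
  pullback of the group `E₀(L(s))` has in `E(L(t))` a finite index prime to three (`PointsIdx`).

(3) Towers. Let `p ≥ 5` be a prime number which is larger than the number of the bad points different from `0` and
`∞`, none of which is a `p`-th power in `k`. Then the primes `v` for which this is true for ALL the maps
`s = t ^ (p ^ j)`, `j ≥ 0`, have positive lower density.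

(4) For example this is so for `k = ℚ`, `E : y² - 6 (s + 6) x y - 2 (s + 2) (s + 16) (4 s + 27) y = x³`, where
`s = t ^ (p ^ j)`, for all the prime numbers `p ≥ 5`. Here `(-(s + 2) (s + 16), (s + 2) (s + 16)²)` is a section of
infinite order, and `0` and `∞` are bad points.

The Tate conjecture over `k`. Replace `k` by a finite extension whose degree has only the prime divisors 2 and 3 over
which the components of the bad fibres and the points of `E₀` over the algebraic closure are rational (the Galois group
acts on the lattice of the points, of rank at most two in the case of six bad fibres, through a group whose order has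
only these prime divisors; the forms stay irreducible). By the theorems of Artin, Tate and Milne the Tate conjecture
for divisors holds for `X_v` over `κ` at all primes different from the characteristic, and the space of Tate classes
has the dimension `2 + ∑ (m_w - 1) + rank E₀`, the same as the rank of the group of divisors on `X` over `k` modulo
algebraic equivalence, since the rank of `E₀` does not change under good reduction. The specialisation map on the
second cohomology is injective. So the Tate conjecture for divisors on `X` holds over `k` at ALL primes.

The proof. In case (2) each form has a Galois group whose order is divisible by `n`, and a `n`-Sylow subgroup of the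
Galois group of the compositum is not the union of the at most six proper subgroups which act trivially on the roots
of one of the forms; so there is an automorphism `σ` as in (1). By Chebotarev's theorem `σ` is a Frobenius element at
a set of primes of positive density, at which the forms stay irreducible (or powers). Then the theorem
`Pool.Agent.N181.P8.main8` on coverings over arbitrary fields can be applied over `κ`.
-/

set_option autoImplicit false

namespace Pool.Agent.Results.MP_97f789_ag.OrderThreeAllPrimes

open Polynomial NumberField Filter IsDedekindDomain Pool.Agent.J4H46.TP Pool.Agent.W401.Cheb

/-- The lower density of the set of primes of `k` is positive. -/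
def PosDensity {k : Type} [Field k] [NumberField k] (P : HeightOneSpectrum (𝓞 k) → Prop) : Prop :=
  ∃ δ : ℝ, 0 < δ ∧ ∀ᶠ N : ℕ in atTop, δ ≤ dens P N

/-- The number of the nonzero roots of `g` is smaller than `p`, and they are not `p`-th powers. -/
def NonPowers {k : Type} [Field k] [NumberField k] (p : ℕ) (g : (𝓞 k)[X]) : Prop :=
  (∃ Z : Finset k, Z.card < p ∧ ∀ ξ : k, (g.map (algebraMap (𝓞 k) k)).IsRoot ξ → ξ ≠ 0 → ξ ∈ Z) ∧
  ∀ ξ : k, (g.map (algebraMap (𝓞 k) k)).IsRoot ξ → ξ ≠ 0 → ∀ y : k, y ^ p ≠ ξ

open scoped Classical in
theorem result :
    -- the criterion
    (∀ (k : Type) [Field k] [NumberField k] (n : ℕ) (a b q r : (𝓞 k)[X]), BaseT a b →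
      MapDeg n q r → Nat.Coprime n 6 →
      (∃ σ : AlgebraicClosure k ≃ₐ[k] AlgebraicClosure k, ∀ f, FormT a b q r f → OneAt σ n f) →
      PosDensity (GoodT n a b q r)) ∧
    -- maps of prime degree
    (∀ (k : Type) [Field k] [NumberField k] (n : ℕ) (a b q r : (𝓞 k)[X]), BaseT a b →
      MapDeg n q r → n.Prime → 7 ≤ n → (∀ f, FormT a b q r f → InertOrTotal n f) →
      PosDensity (GoodT n a b q r)) ∧
    -- towers
    (∀ (k : Type) [Field k] [NumberField k] (p : ℕ) (a b : (𝓞 k)[X]), BaseT a b →
      p.Prime → 5 ≤ p → NonPowers p (b * (a ^ 3 - 27 * b)) →
      PosDensity (fun v => ∀ j : ℕ, GoodT (p ^ j) a b (X ^ (p ^ j)) 1 v)) ∧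
    -- an example
    (∀ p : ℕ, p.Prime → 5 ≤ p →
      PosDensity (k := ℚ) (fun v => ∀ j : ℕ, GoodT (p ^ j) (-(6 * (X + 6)))
        (-(2 * (X + 2) * (X + 16) * (4 * X + 27))) (X ^ (p ^ j)) 1 v)) := by
  refine ⟨fun k _ _ n a b q r hB hM h6 ⟨σ, hσ⟩ => critT hB hM h6 hσ,
    fun k _ _ n a b q r hB hM hp h7 h => primeT hB hM hp h7 h, ?_, fun p hp h5 => exaT hp h5⟩
  rintro k _ _ p a b hB hp h5 ⟨⟨Z, hZ, hZr⟩, h⟩
  refine towerT hB hp h5 ?_ h
  refine lt_of_le_of_lt (Finset.card_le_card fun ξ hξ => ?_) hZ
  rw [Finset.mem_erase, Multiset.mem_toFinset, mem_roots'] at hξ
  exact hZr ξ hξ.2.2 hξ.1

end Pool.Agent.Results.MP_97f789_ag.OrderThreeAllPrimes
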